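import Pool.Agent.P8H59.JK.Chain

/-!
# Project JK, part 2, package RK: the dimension of the space of chains
-/

set_option autoImplicit false

namespace Pool.Agent.P8H56.JK

open Module P8H59.JK Matrix

/-! ### The matrix of the chain equations of one block -/

section X

variable {P Q r : ℕ}

/-- the matrix of `w ↦ (M w_j - N w_(j-1))_j` -/
def X (r : ℕ) (M N : Matrix (Fin P) (Fin Q) ℂ) : Matrix (Fin r × Fin P) (Fin r × Fin Q) ℂ :=
  fun a b => (if a.1 = b.1 then M a.2 b.2 else 0) + (if (a.1 : ℕ) = b.1 + 1 then -N a.2 b.2 else 0)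

lemma X_mulVec (M N : Matrix (Fin P) (Fin Q) ℂ) (w : Fin r × Fin Q → ℂ) (j : Fin r) (p : Fin P) :
    (X r M N *ᵥ w) (j, p) = ∑ q, M p q * w (j, q) -
      (if h : (j : ℕ) = 0 then 0 else ∑ q, N p q * w (⟨j - 1, by omega⟩, q)) := by
  have h1 : (X r M N *ᵥ w) (j, p) = ∑ l : Fin r, ∑ q : Fin Q, X r M N (j, p) (l, q) * w (l, q) := by
    show ∑ b, X r M N (j, p) b * w b = _
    rw [Fintype.sum_prod_type]
  rw [h1]
  have h2 : ∀ l : Fin r, ∑ q : Fin Q, X r M N (j, p) (l, q) * w (l, q) =
      (if j = l then ∑ q, M p q * w (l, q) else 0) +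
      (if (j : ℕ) = l + 1 then -∑ q, N p q * w (l, q) else 0) := by
    intro l
    have h3 : ∀ q : Fin Q, X r M N (j, p) (l, q) * w (l, q) =
        (if j = l then M p q * w (l, q) else 0) +
        (if (j : ℕ) = l + 1 then -(N p q * w (l, q)) else 0) := by
      intro q
      show ((if j = l then M p q else 0) + (if (j : ℕ) = l + 1 then -N p q else 0)) * w (l, q) = _
      split_ifs <;> ring
    rw [Finset.sum_congr rfl (fun q _ => h3 q), Finset.sum_add_distrib]
    congr 1
    · split_ifs <;> simp
    · split_ifs <;> simp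
  rw [Finset.sum_congr rfl (fun l _ => h2 l), Finset.sum_add_distrib, Finset.sum_ite_eq]
  rw [if_pos (Finset.mem_univ _), sub_eq_add_neg]
  congr 1
  split_ifs with h
  · rw [neg_zero]
    apply Finset.sum_eq_zero
    intro l _
    rw [if_neg (by omega)]
  · rw [Finset.sum_eq_single (⟨j - 1, by omega⟩ : Fin r)]
    · rw [if_pos (by simp only; omega)]
    · intro l _ hl
      rw [if_neg]
      intro e
      apply hl
      apply Fin.ext
      simp only
      omega
    · intro h'
      exact absurd (Finset.mem_univ _) h'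

lemma mem_X (M N : Matrix (Fin P) (Fin Q) ℂ) (w : Fin r × Fin Q → ℂ) :
    w ∈ LinearMap.ker (X r M N).mulVecLin ↔ ∀ (j : Fin r) (p : Fin P),
      ∑ q, M p q * w (j, q) =
        (if h : (j : ℕ) = 0 then 0 else ∑ q, N p q * w (⟨j - 1, by omega⟩, q)) := by
  rw [LinearMap.mem_ker, Matrix.mulVecLin_apply, funext_iff]
  constructor
  · intro h j p
    have := h (j, p)
    rw [X_mulVec] at this
    exact sub_eq_zero.1 this
  · rintro h ⟨j, p⟩
    rw [X_mulVec, h j p, sub_self]
    rfl

/-- the transposed matrix -/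
lemma X_tr (M N : Matrix (Fin P) (Fin Q) ℂ) :
    X r Mᵀ Nᵀ = ((X r M N).submatrix (Equiv.prodCongr Fin.revPerm (Equiv.refl (Fin P)))
      (Equiv.prodCongr Fin.revPerm (Equiv.refl (Fin Q))))ᵀ := by
  ext ⟨j, q⟩ ⟨l, p⟩
  show (if j = l then M p q else 0) + (if (j : ℕ) = l + 1 then -N p q else 0) =
    (if Fin.rev l = Fin.rev j then M p q else 0) +
      (if ((Fin.rev l : Fin r) : ℕ) = (Fin.rev j : Fin r) + 1 then -N p q else 0)
  congr 1
  · by_cases h : j = l
    · rw [if_pos h, if_pos (by rw [h])]
    · rw [if_neg h, if_neg (fun e => h (Fin.rev_injective e).symm)]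
  · have e : (j : ℕ) = l + 1 ↔ ((Fin.rev l : Fin r) : ℕ) = (Fin.rev j : Fin r) + 1 := by
      rw [Fin.val_rev, Fin.val_rev]
      omega
    by_cases h : (j : ℕ) = l + 1
    · rw [if_pos h, if_pos (e.1 h)]
    · rw [if_neg h, if_neg (fun h' => h (e.2 h'))]

/-- duality -/
lemma dual_X (M N : Matrix (Fin P) (Fin Q) ℂ) :
    finrank ℂ (LinearMap.ker (X r M N).mulVecLin) + r * P =
      finrank ℂ (LinearMap.ker (X r Mᵀ Nᵀ).mulVecLin) + r * Q := by
  have h1 := LinearMap.finrank_range_add_finrank_ker (X r M N).mulVecLin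
  have h2 := LinearMap.finrank_range_add_finrank_ker (X r Mᵀ Nᵀ).mulVecLin
  have h3 : (X r Mᵀ Nᵀ).rank = (X r M N).rank := by
    rw [X_tr, Matrix.rank_transpose, Matrix.rank_submatrix]
  unfold Matrix.rank at h3
  rw [h3] at h2
  rw [Module.finrank_fintype_fun_eq_card, Fintype.card_prod, Fintype.card_fin, Fintype.card_fin]
    at h1 h2
  omega

/-- triangular blocks have no chains -/
lemma tri_X {a b : ℂ} (ha : a ≠ 0) (hPQ : P ≤ Q) (M N : Matrix (Fin P) (Fin Q) ℂ)
    (hM : ∀ p q, M p q = if (p : ℕ) = q then a else if (p : ℕ) + 1 = q then b else 0) :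
    finrank ℂ (LinearMap.ker (X r Mᵀ Nᵀ).mulVecLin) = 0 := by
  have hbot : LinearMap.ker (X r Mᵀ Nᵀ).mulVecLin = ⊥ := by
    rw [eq_bot_iff]
    intro u hu
    rw [mem_X] at hu
    rw [Submodule.mem_bot]
    have key : ∀ (n : ℕ) (hn : n < r) (m : ℕ) (hm : m < P), u (⟨n, hn⟩, ⟨m, hm⟩) = 0 := by
      intro n
      induction n with
      | zero =>
        intro hn m
        induction m with
        | zero =>
          intro hm
          have h := hu ⟨0, hn⟩ ⟨0, by omega⟩
          rw [dif_pos rfl, Finset.sum_eq_single (⟨0, hm⟩ : Fin P)] at h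
          · rw [Matrix.transpose_apply, hM, if_pos rfl] at h
            exact (mul_eq_zero.1 h).resolve_left ha
          · intro p _ hp
            have : (p : ℕ) ≠ 0 := fun e => hp (Fin.ext e)
            rw [Matrix.transpose_apply, hM, if_neg this, if_neg (by simp), zero_mul]
          · intro h'; exact absurd (Finset.mem_univ _) h'
        | succ m ih =>
          intro hm
          have h := hu ⟨0, hn⟩ ⟨m + 1, by omega⟩
          rw [dif_pos rfl, Finset.sum_eq_single (⟨m + 1, hm⟩ : Fin P)] at h
          · rw [Matrix.transpose_apply, hM, if_pos rfl] at h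
            exact (mul_eq_zero.1 h).resolve_left ha
          · intro p _ hp
            by_cases e : (p : ℕ) = m
            · have : p = ⟨m, by omega⟩ := Fin.ext e
              rw [this, ih (by omega), mul_zero]
            · have : (p : ℕ) ≠ m + 1 := fun e => hp (Fin.ext e)
              rw [Matrix.transpose_apply, hM, if_neg this, if_neg (by simp only; omega), zero_mul]
          · intro h'; exact absurd (Finset.mem_univ _) h'
      | succ n IH =>
        intro hn m
        have hr : ∀ q : Fin Q, ∑ p, Nᵀ q p * u (⟨(⟨n + 1, hn⟩ : Fin r) - 1, by omega⟩, p) = 0 := by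
          intro q
          apply Finset.sum_eq_zero
          intro p _
          have := IH (by omega) p p.2
          have e : (⟨((⟨n + 1, hn⟩ : Fin r) : ℕ) - 1, by omega⟩ : Fin r) = ⟨n, by omega⟩ := by
            apply Fin.ext
            simp
          rw [e]
          rw [this, mul_zero]
        induction m with
        | zero =>
          intro hm
          have h := hu ⟨n + 1, hn⟩ ⟨0, by omega⟩
          rw [dif_neg (by simp), hr, Finset.sum_eq_single (⟨0, hm⟩ : Fin P)] at h
          · rw [Matrix.transpose_apply, hM, if_pos rfl] at h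
            exact (mul_eq_zero.1 h).resolve_left ha
          · intro p _ hp
            have : (p : ℕ) ≠ 0 := fun e => hp (Fin.ext e)
            rw [Matrix.transpose_apply, hM, if_neg this, if_neg (by simp), zero_mul]
          · intro h'; exact absurd (Finset.mem_univ _) h'
        | succ m ih =>
          intro hm
          have h := hu ⟨n + 1, hn⟩ ⟨m + 1, by omega⟩
          rw [dif_neg (by simp), hr, Finset.sum_eq_single (⟨m + 1, hm⟩ : Fin P)] at h
          · rw [Matrix.transpose_apply, hM, if_pos rfl] at h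
            exact (mul_eq_zero.1 h).resolve_left ha
          · intro p _ hp
            by_cases e : (p : ℕ) = m
            · have : p = ⟨m, by omega⟩ := Fin.ext e
              rw [this, ih (by omega), mul_zero]
            · have : (p : ℕ) ≠ m + 1 := fun e => hp (Fin.ext e)
              rw [Matrix.transpose_apply, hM, if_neg this, if_neg (by simp only; omega), zero_mul]
          · intro h'; exact absurd (Finset.mem_univ _) h'
    funext ⟨⟨n, hn⟩, ⟨m, hm⟩⟩
    exact key n hn m hm
  rw [hbot]
  exact finrank_bot ℂ _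

/-- the space for the nilpotent Jordan blocks -/
def Kan (n r : ℕ) : Submodule ℂ (Fin r × Fin n → ℂ) where
  carrier := {u | ∀ (j : Fin r) (q : Fin n),
    (if h : (q : ℕ) = 0 then 0 else u (j, ⟨q - 1, by omega⟩)) =
      (if h : (j : ℕ) = 0 then 0 else u (⟨j - 1, by omega⟩, q))}
  zero_mem' := by
    intro j q
    split_ifs <;> rfl
  add_mem' := by
    intro u u' hu hu' j q
    have h1 := hu j q
    have h2 := hu' j q
    split_ifs at h1 h2 ⊢
    · rfl
    · show (0 : ℂ) = u _ + u' _
      rw [← h1, ← h2, add_zero]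
    · show u _ + u' _ = (0 : ℂ)
      rw [h1, h2, add_zero]
    · show u _ + u' _ = u _ + u' _
      rw [h1, h2]
  smul_mem' := by
    intro c u hu j q
    have h1 := hu j q
    split_ifs at h1 ⊢
    · rfl
    · show (0 : ℂ) = c * u _
      rw [← h1, mul_zero]
    · show c * u _ = (0 : ℂ)
      rw [h1, mul_zero]
    · show c * u _ = c * u _
      rw [h1]

lemma mem_Kan {n r : ℕ} {u : Fin r × Fin n → ℂ} : u ∈ Kan n r ↔ ∀ (j : Fin r) (q : Fin n),
    (if h : (q : ℕ) = 0 then 0 else u (j, ⟨q - 1, by omega⟩)) =
      (if h : (j : ℕ) = 0 then 0 else u (⟨j - 1, by omega⟩, q)) := Iff.rfl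

/-- the symmetry -/
lemma Kan_swap (n r : ℕ) : finrank ℂ (Kan n r) = finrank ℂ (Kan r n) := by
  let e : (Fin r × Fin n → ℂ) ≃ₗ[ℂ] (Fin n × Fin r → ℂ) :=
    LinearEquiv.funCongrLeft ℂ ℂ (Equiv.prodComm (Fin n) (Fin r))
  have h : (Kan n r).map (e : (Fin r × Fin n → ℂ) →ₗ[ℂ] (Fin n × Fin r → ℂ)) = Kan r n := by
    ext u
    constructor
    · rintro ⟨u, hu, rfl⟩ j q
      exact (hu q j).symm
    · intro hu
      refine ⟨e.symm u, ?_, e.apply_symm_apply u⟩
      intro j q
      exact (hu q j).symm
  rw [← h]
  exact (LinearEquiv.finrank_map_eq e (Kan n r)).symm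

lemma Kan_of_le {n r : ℕ} (h : r ≤ n) : finrank ℂ (Kan n r) = r := by
  have hlast : ∀ j : Fin r, n - 1 < n := fun j => by
    have := j.2
    omega
  let f : Kan n r →ₗ[ℂ] (Fin r → ℂ) :=
    { toFun := fun u j => u.1 (j, ⟨n - 1, hlast j⟩)
      map_add' := fun u u' => rfl
      map_smul' := fun c u => rfl }
  have hf : Function.Bijective f := by
    constructor
    · rw [injective_iff_map_eq_zero]
      intro u hu
      have h0 : ∀ j : Fin r, u.1 (j, ⟨n - 1, hlast j⟩) = 0 := fun j => congrFun hu j
      have hstep : ∀ (j q : ℕ) (hj : j + 1 < r) (hq : q + 1 < n),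
          u.1 (⟨j + 1, hj⟩, ⟨q, by omega⟩) = u.1 (⟨j, by omega⟩, ⟨q + 1, hq⟩) := by
        intro j q hj hq
        have h1 := u.2 ⟨j + 1, hj⟩ ⟨q + 1, hq⟩
        rw [dif_neg (by simp), dif_neg (by simp)] at h1
        exact h1
      have hz : ∀ (q : ℕ) (hq : q + 1 < n) (hr : 0 < r), u.1 (⟨0, hr⟩, ⟨q, by omega⟩) = 0 := by
        intro q hq hr
        have h1 := u.2 ⟨0, hr⟩ ⟨q + 1, hq⟩
        rw [dif_neg (by simp), dif_pos rfl] at h1
        exact h1
      have key : ∀ (j q : ℕ) (hj : j < r) (hq : q < n), u.1 (⟨j, hj⟩, ⟨q, hq⟩) = 0 := by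
        intro j
        induction j with
        | zero =>
          intro q hj hq
          by_cases hq1 : q + 1 < n
          · exact hz q hq1 hj
          · have e : q = n - 1 := by omega
            subst e
            exact h0 ⟨0, hj⟩
        | succ j ih =>
          intro q hj hq
          by_cases hq1 : q + 1 < n
          · rw [hstep j q hj hq1]
            exact ih _ _ _
          · have e : q = n - 1 := by omega
            subst e
            exact h0 ⟨j + 1, hj⟩
      apply Subtype.ext
      funext ⟨⟨j, hj⟩, ⟨q, hq⟩⟩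
      exact key j q hj hq
    · intro c
      refine ⟨⟨fun a => if h' : n ≤ (a.1 : ℕ) + a.2 + 1 then c ⟨(a.1 : ℕ) + a.2 + 1 - n, by
        have := a.1.2
        have := a.2.2
        omega⟩ else 0, ?_⟩, ?_⟩
      · rw [mem_Kan]
        intro j q
        have hj := j.2
        have hq := q.2
        by_cases hq0 : (q : ℕ) = 0
        · rw [dif_pos hq0]
          by_cases hj0 : (j : ℕ) = 0
          · rw [dif_pos hj0]
          · rw [dif_neg hj0]
            rw [dif_neg]
            simp only
            omega
        · rw [dif_neg hq0]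
          by_cases hj0 : (j : ℕ) = 0
          · rw [dif_pos hj0]
            rw [dif_neg]
            simp only
            omega
          · rw [dif_neg hj0]
            simp only
            by_cases hh : n ≤ (j : ℕ) + (q - 1) + 1
            · have hh' : n ≤ (j : ℕ) - 1 + q + 1 := by omega
              rw [dif_pos hh, dif_pos hh']
              congr 1
              apply Fin.ext
              simp only
              omega
            · have hh' : ¬ n ≤ (j : ℕ) - 1 + q + 1 := by omega
              rw [dif_neg hh, dif_neg hh']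
      · funext j
        have hj := j.2
        show (if h' : n ≤ (j : ℕ) + (n - 1) + 1 then c ⟨(j : ℕ) + (n - 1) + 1 - n, _⟩ else 0) = c j
        rw [dif_pos (by omega)]
        congr 1
        apply Fin.ext
        simp only
        omega
  rw [(LinearEquiv.ofBijective f hf).finrank_eq, Module.finrank_fintype_fun_eq_card,
    Fintype.card_fin]

lemma finrank_Kan (n r : ℕ) : finrank ℂ (Kan n r) = min n r := by
  rcases le_total r n with h | h
  · rw [Kan_of_le h, min_eq_right h]
  · rw [Kan_swap, Kan_of_le h, min_eq_left h]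

/-- the nilpotent Jordan block -/
lemma jord_X {n : ℕ} (M N : Matrix (Fin n) (Fin n) ℂ)
    (hM : ∀ p q, M p q = if (p : ℕ) + 1 = q then 1 else 0)
    (hN : ∀ p q, N p q = if (p : ℕ) = q then 1 else 0) :
    finrank ℂ (LinearMap.ker (X r Mᵀ Nᵀ).mulVecLin) = min n r := by
  have h : LinearMap.ker (X r Mᵀ Nᵀ).mulVecLin = Kan n r := by
    ext u
    rw [mem_X, mem_Kan]
    have h1 : ∀ (j : Fin r) (q : Fin n), ∑ p, Mᵀ q p * u (j, p) =
        (if h : (q : ℕ) = 0 then 0 else u (j, ⟨q - 1, by omega⟩)) := by
      intro j q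
      split_ifs with h
      · apply Finset.sum_eq_zero
        intro p _
        rw [Matrix.transpose_apply, hM, if_neg (by omega), zero_mul]
      · rw [Finset.sum_eq_single (⟨q - 1, by omega⟩ : Fin n)]
        · rw [Matrix.transpose_apply, hM, if_pos (by simp only; omega), one_mul]
        · intro p _ hp
          have : (p : ℕ) ≠ q - 1 := fun e => hp (Fin.ext e)
          rw [Matrix.transpose_apply, hM, if_neg (by omega), zero_mul]
        · intro h'; exact absurd (Finset.mem_univ _) h'
    have h2 : ∀ (j : Fin r) (q : Fin n), ∑ p, Nᵀ q p * u (j, p) = u (j, q) := by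
      intro j q
      rw [Finset.sum_eq_single q]
      · rw [Matrix.transpose_apply, hN, if_pos rfl, one_mul]
      · intro p _ hp
        rw [Matrix.transpose_apply, hN, if_neg (fun e => hp (Fin.ext e)), zero_mul]
      · intro h'; exact absurd (Finset.mem_univ _) h'
    simp only [h1, h2]
  rw [h, finrank_Kan]

end X

end Pool.Agent.P8H56.JK
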