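import Pool.Agent.P8H56.JK.Rk

/-!
# Project JK, part 2, package RK: the decomposition of the space of chains
-/

set_option autoImplicit false

namespace Pool.Agent.P8H56.JK

open Module P8H59.JK Matrix

variable {V : Type} [AddCommGroup V] [Module ℂ V] {ι : Type} [Fintype ι] [DecidableEq ι]
  {blk : ι → Block} (v : Basis (Σ i, Fin (blk i).P ⊕ Fin (blk i).Q) ℂ V)

lemma form_inr (E : V →ₗ[ℂ] V →ₗ[ℂ] ℂ) (ent : Block → ℕ → ℕ → ℂ)
    (hE : ∀ s t, E (v s) (v t) = skewEnt ent blk s t) (x : V) (i : ι) (q : Fin (blk i).Q) :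
    E x (v ⟨i, Sum.inr q⟩) = ∑ p : Fin (blk i).P, ent (blk i) p q * v.repr x ⟨i, Sum.inl p⟩ := by
  conv_lhs => rw [← v.sum_repr x]
  rw [map_sum, LinearMap.sum_apply, Fintype.sum_sigma, Finset.sum_eq_single i]
  · rw [Fintype.sum_sum_type]
    have h2 : ∑ q' : Fin (blk i).Q, (E (v.repr x ⟨i, Sum.inr q'⟩ • v ⟨i, Sum.inr q'⟩))
        (v ⟨i, Sum.inr q⟩) = 0 := by
      apply Finset.sum_eq_zero
      intro q' _
      rw [map_smul, LinearMap.smul_apply, hE]
      simp [skewEnt]
    rw [h2, add_zero]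
    apply Finset.sum_congr rfl
    intro p _
    rw [map_smul, LinearMap.smul_apply, hE]
    simp [skewEnt, mul_comm]
  · intro i' _ hi
    rw [Fintype.sum_sum_type]
    have h1 : ∑ p' : Fin (blk i').P, (E (v.repr x ⟨i', Sum.inl p'⟩ • v ⟨i', Sum.inl p'⟩))
        (v ⟨i, Sum.inr q⟩) = 0 := by
      apply Finset.sum_eq_zero
      intro p' _
      rw [map_smul, LinearMap.smul_apply, hE]
      simp [skewEnt, hi]
    have h2 : ∑ q' : Fin (blk i').Q, (E (v.repr x ⟨i', Sum.inr q'⟩ • v ⟨i', Sum.inr q'⟩))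
        (v ⟨i, Sum.inr q⟩) = 0 := by
      apply Finset.sum_eq_zero
      intro q' _
      rw [map_smul, LinearMap.smul_apply, hE]
      simp [skewEnt]
    rw [h1, h2, add_zero]
  · intro h
    exact absurd (Finset.mem_univ _) h

lemma form_inl (E : V →ₗ[ℂ] V →ₗ[ℂ] ℂ) (ent : Block → ℕ → ℕ → ℂ)
    (hE : ∀ s t, E (v s) (v t) = skewEnt ent blk s t) (x : V) (i : ι) (p : Fin (blk i).P) :
    E x (v ⟨i, Sum.inl p⟩) = -∑ q : Fin (blk i).Q, ent (blk i) p q * v.repr x ⟨i, Sum.inr q⟩ := by
  conv_lhs => rw [← v.sum_repr x]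
  rw [map_sum, LinearMap.sum_apply, Fintype.sum_sigma, Finset.sum_eq_single i]
  · rw [Fintype.sum_sum_type]
    have h2 : ∑ p' : Fin (blk i).P, (E (v.repr x ⟨i, Sum.inl p'⟩ • v ⟨i, Sum.inl p'⟩))
        (v ⟨i, Sum.inl p⟩) = 0 := by
      apply Finset.sum_eq_zero
      intro q' _
      rw [map_smul, LinearMap.smul_apply, hE]
      simp [skewEnt]
    rw [h2, zero_add, ← Finset.sum_neg_distrib]
    apply Finset.sum_congr rfl
    intro q _
    rw [map_smul, LinearMap.smul_apply, hE]
    simp [skewEnt, mul_comm]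
  · intro i' _ hi
    rw [Fintype.sum_sum_type]
    have h1 : ∑ p' : Fin (blk i').P, (E (v.repr x ⟨i', Sum.inl p'⟩ • v ⟨i', Sum.inl p'⟩))
        (v ⟨i, Sum.inl p⟩) = 0 := by
      apply Finset.sum_eq_zero
      intro p' _
      rw [map_smul, LinearMap.smul_apply, hE]
      simp [skewEnt]
    have h2 : ∑ q' : Fin (blk i').Q, (E (v.repr x ⟨i', Sum.inr q'⟩ • v ⟨i', Sum.inr q'⟩))
        (v ⟨i, Sum.inl p⟩) = 0 := by
      apply Finset.sum_eq_zero
      intro q' _
      rw [map_smul, LinearMap.smul_apply, hE]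
      simp [skewEnt, hi]
    rw [h1, h2, add_zero]
  · intro h
    exact absurd (Finset.mem_univ _) h

/-- the coordinates of the `p`-part -/
noncomputable def cP (r : ℕ) (i : ι) : (Fin r → V) →ₗ[ℂ] (Fin r × Fin (blk i).P → ℂ) where
  toFun ξ a := v.repr (ξ a.1) ⟨i, Sum.inl a.2⟩
  map_add' ξ η := by
    funext a
    simp
  map_smul' c ξ := by
    funext a
    simp

/-- the coordinates of the `q`-part -/
noncomputable def cQ (r : ℕ) (i : ι) : (Fin r → V) →ₗ[ℂ] (Fin r × Fin (blk i).Q → ℂ) where
  toFun ξ a := v.repr (ξ a.1) ⟨i, Sum.inr a.2⟩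
  map_add' ξ η := by
    funext a
    simp
  map_smul' c ξ := by
    funext a
    simp

/-- the matrix of the form `A - t B` -/
def mM (b : Block) (t : ℂ) : Matrix (Fin b.P) (Fin b.Q) ℂ := fun p q => b.entA p q - t * b.entB p q

/-- the matrix of the form `B` -/
def mN (b : Block) : Matrix (Fin b.P) (Fin b.Q) ℂ := fun p q => b.entB p q

variable {A B : V →ₗ[ℂ] V →ₗ[ℂ] ℂ}
    (hA : ∀ s t, A (v s) (v t) = skewEnt Block.entA blk s t)
    (hB : ∀ s t, B (v s) (v t) = skewEnt Block.entB blk s t)

include hA hB in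
lemma mem_ker (t : ℂ) (r : ℕ) (ξ : Fin r → V) :
    ξ ∈ LinearMap.ker (chainMap r (A - t • B) B) ↔
      ∀ i, cP v r i ξ ∈ LinearMap.ker (X r (mM (blk i) t)ᵀ (mN (blk i))ᵀ).mulVecLin ∧
        cQ v r i ξ ∈ LinearMap.ker (X r (mM (blk i) t) (mN (blk i))).mulVecLin := by
  have hC : ∀ (x : V) (s), (A - t • B) x (v s) = A x (v s) - t * B x (v s) := by
    intro x s
    simp
  have h1 : ξ ∈ LinearMap.ker (chainMap r (A - t • B) B) ↔ ∀ (j : Fin r) s,
      (A - t • B) (ξ j) (v s) =
        (if h : (j : ℕ) = 0 then 0 else B (ξ ⟨j - 1, by omega⟩) (v s)) := by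
    rw [LinearMap.mem_ker, funext_iff]
    refine forall_congr' fun j => ?_
    show (A - t • B) (ξ j) - (if h : (j : ℕ) = 0 then 0 else B (ξ ⟨j - 1, by omega⟩)) = 0 ↔ _
    rw [sub_eq_zero]
    constructor
    · intro h s
      rw [h]
      split_ifs <;> rfl
    · intro h
      apply v.ext
      intro s
      rw [h s]
      split_ifs <;> rfl
  rw [h1]
  have hcP : ∀ i (a : Fin r) p, cP v r i ξ (a, p) = v.repr (ξ a) ⟨i, Sum.inl p⟩ :=
    fun _ _ _ => rfl
  have hcQ : ∀ i (a : Fin r) q, cQ v r i ξ (a, q) = v.repr (ξ a) ⟨i, Sum.inr q⟩ :=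
    fun _ _ _ => rfl
  simp only [mem_X, hcP, hcQ, Matrix.transpose_apply, mM, mN]
  have eP : ∀ (j : Fin r) i (q : Fin (blk i).Q), (A - t • B) (ξ j) (v ⟨i, Sum.inr q⟩) =
      ∑ p : Fin (blk i).P, ((blk i).entA p q - t * (blk i).entB p q) *
        v.repr (ξ j) ⟨i, Sum.inl p⟩ := by
    intro j i q
    rw [hC, form_inr v A _ hA, form_inr v B _ hB, Finset.mul_sum, ← Finset.sum_sub_distrib]
    exact Finset.sum_congr rfl fun p _ => by ring
  have eQ : ∀ (j : Fin r) i (p : Fin (blk i).P), (A - t • B) (ξ j) (v ⟨i, Sum.inl p⟩) =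
      -∑ q : Fin (blk i).Q, ((blk i).entA p q - t * (blk i).entB p q) *
        v.repr (ξ j) ⟨i, Sum.inr q⟩ := by
    intro j i p
    rw [hC, form_inl v A _ hA, form_inl v B _ hB, mul_neg, Finset.mul_sum, sub_neg_eq_add,
      ← sub_eq_neg_add, ← neg_sub, ← Finset.sum_sub_distrib]
    congr 1
    exact Finset.sum_congr rfl fun p _ => by ring
  constructor
  · intro h i
    refine ⟨fun j q => ?_, fun j p => ?_⟩
    · rw [← eP, h j ⟨i, Sum.inr q⟩]
      split_ifs with hj
      · rfl
      · rw [form_inr v B _ hB]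
    · have := h j ⟨i, Sum.inl p⟩
      rw [eQ] at this
      rw [← neg_inj, this]
      split_ifs with hj
      · rw [neg_zero]
      · rw [form_inl v B _ hB]
  · rintro h j ⟨i, p | q⟩
    · rw [eQ, (h i).2 j p]
      split_ifs with hj
      · rw [neg_zero]
      · rw [form_inl v B _ hB]
    · rw [eP, (h i).1 j q]
      split_ifs with hj
      · rfl
      · rw [form_inr v B _ hB]

include hA hB in
/-- the decomposition of the space of chains -/
lemma finrank_sum (t : ℂ) (r : ℕ) :
    finrank ℂ (LinearMap.ker (chainMap r (A - t • B) B)) =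
      ∑ i, (finrank ℂ (LinearMap.ker (X r (mM (blk i) t)ᵀ (mN (blk i))ᵀ).mulVecLin) +
        finrank ℂ (LinearMap.ker (X r (mM (blk i) t) (mN (blk i))).mulVecLin)) := by
  let f : LinearMap.ker (chainMap r (A - t • B) B) →ₗ[ℂ]
      (∀ i, (LinearMap.ker (X r (mM (blk i) t)ᵀ (mN (blk i))ᵀ).mulVecLin) ×
        (LinearMap.ker (X r (mM (blk i) t) (mN (blk i))).mulVecLin)) :=
    { toFun := fun ξ i => (⟨cP v r i ξ.1, ((mem_ker v hA hB t r ξ.1).1 ξ.2 i).1⟩,
        ⟨cQ v r i ξ.1, ((mem_ker v hA hB t r ξ.1).1 ξ.2 i).2⟩)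
      map_add' := fun ξ η => by
        funext i
        apply Prod.ext
        · apply Subtype.ext
          exact map_add (cP v r i) ξ.1 η.1
        · apply Subtype.ext
          exact map_add (cQ v r i) ξ.1 η.1
      map_smul' := fun c ξ => by
        funext i
        apply Prod.ext
        · apply Subtype.ext
          exact map_smul (cP v r i) c ξ.1
        · apply Subtype.ext
          exact map_smul (cQ v r i) c ξ.1 }
  have hf : Function.Bijective f := by
    constructor
    · rw [injective_iff_map_eq_zero]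
      intro ξ hξ
      apply Subtype.ext
      funext j
      apply v.ext_elem
      rintro ⟨i, p | q⟩
      · have h1 := congrArg (fun F => (F i).1.1 (j, p)) hξ
        simpa [f, cP] using h1
      · have h1 := congrArg (fun F => (F i).2.1 (j, q)) hξ
        simpa [f, cQ] using h1
    · intro F
      let ξ : Fin r → V := fun j => v.equivFun.symm (fun s => match s with
        | ⟨i, Sum.inl p⟩ => (F i).1.1 (j, p)
        | ⟨i, Sum.inr q⟩ => (F i).2.1 (j, q))
      have hr : ∀ j s, v.repr (ξ j) s = (match s with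
        | ⟨i, Sum.inl p⟩ => (F i).1.1 (j, p)
        | ⟨i, Sum.inr q⟩ => (F i).2.1 (j, q)) := by
        intro j s
        have := congrFun (v.equivFun.apply_symm_apply (fun s => match s with
          | ⟨i, Sum.inl p⟩ => (F i).1.1 (j, p)
          | ⟨i, Sum.inr q⟩ => (F i).2.1 (j, q))) s
        rw [← this, Basis.equivFun_apply]
      have hP : ∀ i, cP v r i ξ = (F i).1.1 := by
        intro i
        funext ⟨j, p⟩
        exact hr j ⟨i, Sum.inl p⟩
      have hQ : ∀ i, cQ v r i ξ = (F i).2.1 := by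
        intro i
        funext ⟨j, q⟩
        exact hr j ⟨i, Sum.inr q⟩
      refine ⟨⟨ξ, (mem_ker v hA hB t r ξ).2 fun i => ?_⟩, ?_⟩
      · rw [hP, hQ]
        exact ⟨(F i).1.2, (F i).2.2⟩
      · funext i
        apply Prod.ext
        · exact Subtype.ext (hP i)
        · exact Subtype.ext (hQ i)
  rw [(LinearEquiv.ofBijective f hf).finrank_eq, Module.finrank_pi_fintype]
  exact Finset.sum_congr rfl fun i _ => Module.finrank_prod

/-- the dimension for one block -/
lemma finrank_block (b : Block) (t : ℂ) (r : ℕ) [DecidableEq (Option ℂ)] :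
    finrank ℂ (LinearMap.ker (X r (mM b t)ᵀ (mN b)ᵀ).mulVecLin) +
        finrank ℂ (LinearMap.ker (X r (mM b t) (mN b)).mulVecLin) =
      match b with
      | .kron _ => r
      | .jord n μ => if μ = some t then 2 * min n r else 0 := by
  have hd := dual_X (r := r) (mM b t) (mN b)
  rcases b with k | ⟨n, μ⟩
  · have h0 : finrank ℂ (LinearMap.ker (X r (mM (.kron k) t)ᵀ (mN (.kron k))ᵀ).mulVecLin) = 0 := by
      apply tri_X (a := 1) (b := -t) one_ne_zero (Nat.le_succ k)
      intro p q
      show (if (p : ℕ) = q then (1 : ℂ) else 0) - t * (if (p : ℕ) + 1 = q then (1 : ℂ) else 0) = _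
      split_ifs with h1 h2
      · omega
      · ring
      · ring
      · ring
    have hd' : finrank ℂ (LinearMap.ker (X r (mM (.kron k) t) (mN (.kron k))).mulVecLin) + r * k =
      0 + r * (k + 1) := by
      rw [← h0]
      exact hd
    rw [mul_add, mul_one] at hd'
    rw [h0]
    show 0 + _ = r
    omega
  · have hd' : finrank ℂ (LinearMap.ker (X r (mM (.jord n μ) t) (mN (.jord n μ))).mulVecLin) =
        finrank ℂ (LinearMap.ker (X r (mM (.jord n μ) t)ᵀ (mN (.jord n μ))ᵀ).mulVecLin) :=
      Nat.add_right_cancel (m := r * n) hd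
    rw [hd']
    show _ + _ = if μ = some t then 2 * min n r else 0
    rcases μ with _ | μ
    · rw [if_neg (by simp)]
      have h0 : finrank ℂ (LinearMap.ker
          (X r (mM (.jord n none) t)ᵀ (mN (.jord n none))ᵀ).mulVecLin) = 0 := by
        apply tri_X (a := 1) (b := -t) one_ne_zero le_rfl
        intro p q
        show (if (p : ℕ) = q then (1 : ℂ) else 0) - t * (if (p : ℕ) + 1 = q then (1 : ℂ) else 0) = _
        split_ifs with h1 h2
        · omega
        · ring
        · ring
        · ring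
      rw [h0]
    · by_cases h : μ = t
      · subst h
        rw [if_pos rfl]
        have h0 : finrank ℂ (LinearMap.ker
            (X r (mM (.jord n (some μ)) μ)ᵀ (mN (.jord n (some μ)))ᵀ).mulVecLin) = min n r := by
          apply jord_X
          · intro p q
            show (if (p : ℕ) = q then μ else if (p : ℕ) + 1 = q then 1 else 0) -
              μ * (if (p : ℕ) = q then (1 : ℂ) else 0) = _
            split_ifs with h1 h2
            · omega
            · ring
            · ring
            · ring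
          · intro p q
            rfl
        rw [h0, two_mul]
      · rw [if_neg (fun e => h (Option.some.inj e))]
        have h0 : finrank ℂ (LinearMap.ker
            (X r (mM (.jord n (some μ)) t)ᵀ (mN (.jord n (some μ)))ᵀ).mulVecLin) = 0 := by
          apply tri_X (a := μ - t) (b := 1) (sub_ne_zero.2 h) le_rfl
          intro p q
          show (if (p : ℕ) = q then μ else if (p : ℕ) + 1 = q then 1 else 0) -
            t * (if (p : ℕ) = q then (1 : ℂ) else 0) = _
          split_ifs with h1 h2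
          · ring
          · ring
          · ring
        rw [h0]

end Pool.Agent.P8H56.JK

namespace P8H59.JK

open Module

/-- Dimension of the space of chains at the value `t` of the parameter. -/
theorem chain_finrank {V : Type} [AddCommGroup V] [Module ℂ V] [FiniteDimensional ℂ V]
    {T : AlgType} {μ : Fin T.jordan.length → Option ℂ}
    {v : Basis (Σ i, Fin (T.blocks μ i).P ⊕ Fin (T.blocks μ i).Q) ℂ V}
    {A B : V →ₗ[ℂ] V →ₗ[ℂ] ℂ}
    (hA : ∀ s t, A (v s) (v t) = skewEnt Block.entA (T.blocks μ) s t)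
    (hB : ∀ s t, B (v s) (v t) = skewEnt Block.entB (T.blocks μ) s t)
    (t : ℂ) (r : ℕ) [DecidableEq (Option ℂ)] :
    finrank ℂ (LinearMap.ker (chainMap r (A - t • B) B)) =
      r * T.kron.length + 2 * ∑ g : Fin T.jordan.length,
        (if μ g = some t then ((T.jordan.get g).map (fun n => min n r)).sum else 0) := by
  rw [Pool.Agent.P8H56.JK.finrank_sum v hA hB t r]
  simp only [Pool.Agent.P8H56.JK.finrank_block]
  rw [Fintype.sum_sum_type, Fintype.sum_sigma]
  congr 1
  · have h : ∀ i : Fin T.kron.length, (match T.blocks μ (Sum.inl i) with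
      | .kron _ => r
      | .jord n μ => if μ = some t then 2 * min n r else 0) = r := fun i => rfl
    simp only [h]
    rw [Finset.sum_const, Finset.card_univ, Fintype.card_fin, smul_eq_mul, mul_comm]
  · rw [Finset.mul_sum]
    apply Finset.sum_congr rfl
    intro g _
    have h : ∀ s : Fin (T.jordan.get g).length, (match T.blocks μ (Sum.inr ⟨g, s⟩) with
      | .kron _ => r
      | .jord n μ => if μ = some t then 2 * min n r else 0) =
        if μ g = some t then 2 * min ((T.jordan.get g).get s) r else 0 := fun s => rfl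
    simp only [h]
    split_ifs with hg
    · rw [← Finset.mul_sum]
      congr 1
      rw [← List.sum_ofFn]
      congr 1
      conv_rhs => rw [← List.ofFn_get (T.jordan.get g)]
      rw [List.map_ofFn]
      rfl
    · simp

end P8H59.JK
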